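import Pool.Agent.Helper84.TN.Int
import Pool.Agent.Helper12.MP.Reg

set_option autoImplicit false

/-!
Regular sequences which vanish outside a set with bounded representation function.
-/

namespace Pool.Agent.Helper29.MP

open Finset Pool.Agent.Helper84.MP Pool.Agent.Helper82.CF
open Pool.Agent.Helper84.TN hiding Tree
open Pool.Agent.Helper12.MP (IsRegular exists_word value_lt ncard_le_size)

/-- the path: a binary tree with the initial segments and the single positions as blocks -/
theorem exists_path (n : ℕ) : ∀ k : ℕ, 1 ≤ k → k ≤ n → ∃ T : Pool.Agent.Helper84.TN.Tree (Fin n), T.Proper ∧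
    T.set = (univ.filter fun i : Fin n => (i : ℕ) < k) ∧
    ∀ D ∈ T.blocks, (∃ j : ℕ, D = univ.filter fun i : Fin n => (i : ℕ) < j) ∨ ∃ i, D = {i} := by
  intro k h1
  induction k, h1 using Nat.le_induction with
  | base =>
    intro h
    refine ⟨.leaf ⟨0, h⟩, trivial, ?_, ?_⟩
    · ext i
      simp only [Pool.Agent.Helper84.TN.Tree.set, mem_singleton, mem_filter, mem_univ, true_and, Fin.ext_iff]
      omega
    · intro D hD
      rw [Pool.Agent.Helper84.TN.Tree.blocks, Set.mem_singleton_iff] at hD
      exact Or.inr ⟨_, hD⟩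
  | succ k hk ih =>
    intro h
    obtain ⟨T, hT, hset, hb⟩ := ih (by omega)
    have hdis : Disjoint T.set (Pool.Agent.Helper84.TN.Tree.leaf (⟨k, h⟩ : Fin n)).set := by
      rw [hset, Finset.disjoint_left]
      intro i hi hi'
      simp only [Pool.Agent.Helper84.TN.Tree.set, mem_singleton, mem_filter, mem_univ, true_and, Fin.ext_iff] at hi hi'
      omega
    have hu : T.set ∪ (Pool.Agent.Helper84.TN.Tree.leaf (⟨k, h⟩ : Fin n)).set =
        (univ.filter fun i : Fin n => (i : ℕ) < k + 1) := by
      rw [hset]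
      ext i
      simp only [Pool.Agent.Helper84.TN.Tree.set, mem_union, mem_singleton, mem_filter, mem_univ, true_and, Fin.ext_iff]
      omega
    refine ⟨.node T (.leaf ⟨k, h⟩), ⟨hT, trivial, hdis⟩, hu, ?_⟩
    intro D hD
    rw [Pool.Agent.Helper84.TN.Tree.blocks, Set.mem_insert_iff] at hD
    rcases hD with hD | hD | hD
    · rw [hu] at hD
      exact Or.inl ⟨_, hD⟩
    · exact hb D hD
    · rw [Pool.Agent.Helper84.TN.Tree.blocks, Set.mem_singleton_iff] at hD
      exact Or.inr ⟨_, hD⟩

/-- the rank at one position is at most the number of letters -/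
theorem rk_singleton {K : Type*} [Field K] {n b : ℕ} (f : (Fin n → Fin b) → K) (i : Fin n) :
    rk f {i} ≤ b := by
  classical
  rcases Nat.eq_zero_or_pos b with hb | hb
  · subst hb
    have : IsEmpty (Fin n → Fin 0) := ⟨fun w => (w i).elim0⟩
    unfold rk
    rw [Set.range_eq_empty, Submodule.span_empty, finrank_bot]
  set g : Fin b → (Fin n → Fin b) → K := fun c w => f (Function.update w i c) with hg
  have h1 : Submodule.span K (Set.range (row f {i})) ≤ Submodule.span K (Set.range g) := by
    refine Submodule.span_mono ?_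
    rintro _ ⟨v, rfl⟩
    refine ⟨v i, ?_⟩
    funext w
    simp only [hg, row]
    congr 1
    funext j
    by_cases hj : j = i
    · subst hj
      simp [Finset.piecewise]
    · simp [Finset.piecewise, hj]
  unfold rk
  refine (Submodule.finrank_mono h1).trans ((finrank_range_le_card g).trans ?_)
  rw [Fintype.card_fin]

/-- the rank of a matrix product at an initial segment -/
theorem rk_mprod {K : Type*} [Field K] {s b n : ℕ} (M : ℕ → Fin b → Matrix (Fin s) (Fin s) K)
    (u v : Fin s → K) (k : ℕ) : rk (fun w : Fin n → Fin b => dotProduct u ((mprod M n w).mulVec v))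
      (univ.filter fun i : Fin n => (i : ℕ) < k) ≤ s := by
  obtain ⟨g, hg⟩ : ∃ g : Fin s → (Fin n → Fin b) → K,
      g = fun l w => ((suf M k n w).mulVec v) l := ⟨_, rfl⟩
  have hle : Submodule.span K (Set.range (row (fun w : Fin n → Fin b =>
      dotProduct u ((mprod M n w).mulVec v)) (univ.filter fun i : Fin n => (i : ℕ) < k))) ≤
      Submodule.span K (Set.range g) := by
    rw [Submodule.span_le]
    rintro _ ⟨x, rfl⟩
    have h1 : row (fun w : Fin n → Fin b =>
        dotProduct u ((mprod M n w).mulVec v)) (univ.filter fun i : Fin n => (i : ℕ) < k) x =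
        ∑ l : Fin s, (Matrix.vecMul u (pre M k n x) l) • g l := by
      funext w
      have h2 := mprod_split M k n x w
        ((univ.filter fun i : Fin n => (i : ℕ) < k).piecewise x w)
        (fun i hi => Finset.piecewise_eq_of_mem _ _ _ (by simpa using hi))
        (fun i hi => Finset.piecewise_eq_of_notMem _ _ _ (by simpa using hi))
      unfold row
      beta_reduce
      rw [h2, ← Matrix.mulVec_mulVec, Matrix.dotProduct_mulVec, Finset.sum_apply, hg]
      unfold dotProduct
      refine Finset.sum_congr rfl fun l _ => ?_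
      rw [Pi.smul_apply, smul_eq_mul]
    rw [h1]
    exact Submodule.sum_mem _ fun l _ =>
      Submodule.smul_mem _ _ (Submodule.subset_span (Set.mem_range_self l))
  unfold rk
  refine (Submodule.finrank_mono hle).trans ?_
  refine (finrank_range_le_card g).trans ?_
  rw [Fintype.card_fin]

/-- **Regular sequences, bounded case.** -/
theorem regular_bdd {K : Type*} [Field K] {A : Set ℕ} {b s k : ℕ} (hb : 2 ≤ b) (f : ℕ → K)
    (hf : IsRegular b s f) (hA : ∀ c, f c ≠ 0 → c ∈ A) (hr : ∀ m, rep A m < 2 ^ (k + 1)) :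
    ∃ C : ℝ, 0 < C ∧ ∀ x : ℕ, 2 ≤ x →
      (({c | c < x ∧ f c ≠ 0} : Set ℕ).ncard : ℝ) ≤ C * Real.log x ^ k := by
  classical
  have hl2 : 0 < Real.log 2 := Real.log_pos (by norm_num)
  set C₁ : ℝ := 2 / Real.log 2 * (b + 1) with hC₁
  set C₂ : ℝ := ((max s b : ℕ) : ℝ) ^ (3 * (2 ^ k - 1)) with hC₂
  have hb0 : (2 : ℝ) ≤ b := by exact_mod_cast hb
  have hC₁0 : 0 < C₁ := by positivity
  have hm0 : 0 < max s b := lt_max_of_lt_right (by omega)
  have hC₂0 : 0 < C₂ := by
    have : (0 : ℝ) < ((max s b : ℕ) : ℝ) := by exact_mod_cast hm0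
    positivity
  refine ⟨C₁ ^ k * C₂, by positivity, fun x hx => ?_⟩
  set n : ℕ := Nat.clog b x with hn
  have hn1 : x ≤ b ^ n := Nat.le_pow_clog (by omega) x
  have hnpos : 0 < n := Nat.clog_pos (by omega) (by omega)
  have hn2 : b ^ (n - 1) < x := Nat.pow_pred_clog_lt_self (by omega) (by omega)
  obtain ⟨T, hT, hset, hblocks⟩ := exists_path n n hnpos le_rfl
  have huniv : T.set = univ := by
    rw [hset]
    exact Finset.filter_true_of_mem fun i _ => i.2
  obtain ⟨M, u, v, hM⟩ := hf
  set F : (Fin n → Fin b) → K := fun w => f (value w) with hF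
  have hFM : F = fun w => dotProduct u ((mprod (fun _ => M) n w).mulVec v) := funext fun w => hM n w
  have hrk : ∀ D ∈ T.blocks, rk F D ≤ max s b := by
    intro D hD
    rcases hblocks D hD with ⟨j, rfl⟩ | ⟨i, rfl⟩
    · rw [hFM]
      exact (rk_mprod _ u v j).trans (le_max_left _ _)
    · exact (rk_singleton F i).trans (le_max_right _ _)
  have h1 := int_bound (A := A) (x := b ^ n) (k := k) T hT huniv F hm0 hrk
    (fun w hw => ⟨hA _ hw, (value_lt w).le⟩) (fun m _ => hr m)
  have h2 := (ncard_le_size (f := f) hn1).trans h1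
  have h3 : (({c | c < x ∧ f c ≠ 0} : Set ℕ).ncard : ℝ) ≤
      ((n : ℝ) * (b + 1)) ^ k * C₂ := by
    rw [hC₂]
    exact_mod_cast h2
  refine h3.trans ?_
  have hx1 : (2 : ℝ) ≤ x := by exact_mod_cast hx
  have hlx : Real.log 2 ≤ Real.log x := Real.log_le_log (by norm_num) hx1
  have h4 : (n : ℝ) ≤ 2 / Real.log 2 * Real.log x := by
    have h5 : ((b : ℝ) ^ (n - 1)) < x := by exact_mod_cast hn2
    have h6 : (2 : ℝ) ^ (n - 1) ≤ x := (pow_le_pow_left₀ (by norm_num) hb0 _).trans h5.le
    have h7 := Real.log_le_log (by positivity) h6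
    rw [Real.log_pow] at h7
    have h8 : ((n - 1 : ℕ) : ℝ) = (n : ℝ) - 1 := by
      rw [Nat.cast_sub (by omega)]
      norm_num
    rw [h8] at h7
    rw [div_mul_eq_mul_div, le_div_iff₀ hl2]
    linarith
  calc ((n : ℝ) * (b + 1)) ^ k * C₂ ≤ (2 / Real.log 2 * Real.log x * (b + 1)) ^ k * C₂ := by
        gcongr
    _ = C₁ ^ k * C₂ * Real.log x ^ k := by
        rw [hC₁, show 2 / Real.log 2 * Real.log x * ((b : ℝ) + 1) =
          (2 / Real.log 2 * (b + 1)) * Real.log x by ring, mul_pow]
        ring

end Pool.Agent.Helper29.MP
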