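import Pool.Agent.Helper29.MP.Sharp

set_option autoImplicit false

/-!
The same set is `3`-regular.
-/

namespace Pool.Agent.Helper29.MP

open Finset Pool.Agent.Helper84.MP Pool.Agent.Helper82.CF
open Pool.Agent.Helper84.TN (value value_injective size)
open Pool.Agent.Helper12.MP (IsRegular exists_word value_lt ncard_le_size)

/-- the positions of the digit one -/
def pos {k : ℕ} (e : Fin k → ℕ) (i : Fin k) : ℕ := k * e i + (i : ℕ)

theorem pos_mod {k : ℕ} (e : Fin k → ℕ) (i : Fin k) : pos e i % k = i := by
  unfold pos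
  rw [Nat.mul_add_mod, Nat.mod_eq_of_lt i.2]

/-- the word with the digit one exactly at the positions `pos e i` -/
def wrd {n k : ℕ} (e : Fin k → ℕ) : Fin n → Fin 3 := fun t =>
  if ∃ i, pos e i = (t : ℕ) then 1 else 0

theorem value_wrd {n k : ℕ} (e : Fin k → ℕ) (he : ∀ i, pos e i < n) :
    value (wrd (n := n) e) = gn e := by
  classical
  unfold value gn
  have h1 : ∀ t : Fin n, ((wrd e t : Fin 3) : ℕ) * 3 ^ (t : ℕ) =
      ∑ i : Fin k, if pos e i = (t : ℕ) then 3 ^ pos e i else 0 := by
    intro t
    unfold wrd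
    by_cases h : ∃ i, pos e i = (t : ℕ)
    · rw [if_pos h]
      obtain ⟨i, hi⟩ := h
      rw [Finset.sum_eq_single i]
      · rw [if_pos hi, hi]
        simp
      · intro j _ hj
        rw [if_neg]
        intro hj'
        apply hj
        apply Fin.ext
        rw [← pos_mod e i, ← pos_mod e j, hi, hj']
      · intro h
        exact absurd (Finset.mem_univ _) h
    · rw [if_neg h, Finset.sum_eq_zero]
      · simp
      · intro i _
        rw [if_neg]
        intro hi
        exact h ⟨i, hi⟩
  rw [Finset.sum_congr rfl fun t _ => h1 t, Finset.sum_comm]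
  refine Finset.sum_congr rfl fun i _ => ?_
  rw [Finset.sum_eq_single (⟨pos e i, he i⟩ : Fin n)]
  · rw [if_pos rfl]
    rfl
  · intro t _ ht
    rw [if_neg]
    intro h
    exact ht (Fin.ext h.symm)
  · intro h
    exact absurd (Finset.mem_univ _) h

/-- membership by digits -/
theorem value_mem_range3 {n k : ℕ} (w : Fin n → Fin 3) (hk : 1 ≤ k) :
    value w ∈ Set.range (gn : (Fin k → ℕ) → ℕ) ↔ ∀ i : Fin k, ∃ t : Fin n,
      (t : ℕ) % k = i ∧ w t = 1 ∧ ∀ t' : Fin n, t' ≠ t → (t' : ℕ) % k = i → w t' = 0 := by
  constructor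
  · rintro ⟨e, he⟩
    have hlt : ∀ i, pos e i < n := by
      intro i
      have h1 : 3 ^ pos e i ≤ gn e :=
        Finset.single_le_sum (f := fun i : Fin k => 3 ^ (k * e i + (i : ℕ)))
          (fun _ _ => Nat.zero_le _) (Finset.mem_univ i)
      have h2 := value_lt w
      rw [← he] at h2
      exact (Nat.pow_lt_pow_iff_right (by norm_num : 1 < 3)).1 (h1.trans_lt h2)
    rw [← value_wrd e hlt] at he
    have hw := value_injective he
    intro i
    refine ⟨⟨pos e i, hlt i⟩, pos_mod e i, ?_, ?_⟩
    · rw [← hw]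
      unfold wrd
      rw [if_pos ⟨i, rfl⟩]
    · intro t' ht' hmod
      rw [← hw]
      unfold wrd
      rw [if_neg]
      rintro ⟨j, hj⟩
      apply ht'
      apply Fin.ext
      have h3 : j = i := by
        apply Fin.ext
        rw [← pos_mod e j, hj, hmod]
      rw [← hj, h3]
  · intro h
    choose t ht0 ht1 ht2 using h
    have hp : ∀ i, pos (fun i => (t i : ℕ) / k) i = t i := by
      intro i
      unfold pos
      rw [← ht0 i]
      exact Nat.div_add_mod _ _
    refine ⟨fun i => (t i : ℕ) / k, ?_⟩
    rw [← value_wrd (n := n) (fun i => (t i : ℕ) / k) fun i => by rw [hp]; exact (t i).2]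
    congr 1
    funext r
    unfold wrd
    by_cases hr : ∃ i, pos (fun i => (t i : ℕ) / k) i = (r : ℕ)
    · rw [if_pos hr]
      obtain ⟨i, hi⟩ := hr
      rw [hp] at hi
      have hr' : r = t i := Fin.ext hi.symm
      rw [hr', ht1]
    · rw [if_neg hr]
      refine (ht2 ⟨(r : ℕ) % k, Nat.mod_lt _ (by omega)⟩ r ?_ rfl).symm
      intro h
      exact hr ⟨_, by rw [hp, ← h]⟩

variable {K : Type*} [Field K]

/-- the matrices of one class, which looks at the positions in `P` only -/
def sel (K : Type*) [Field K] (P : ℕ → Prop) [DecidablePred P] (t : ℕ) (d : Fin 3) :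
    Matrix (Fin 2) (Fin 2) K := if P t then mat d else 1

theorem prod_sel (P : ℕ → Prop) [DecidablePred P] (n : ℕ) : ∀ a : Fin n → Fin 3,
    (mprod (sel K P) n a) 0 0 = (if ∀ t : Fin n, P t → a t = 0 then 1 else 0) ∧
    (mprod (sel K P) n a) 0 1 =
      (if ∃ t : Fin n, P t ∧ a t = 1 ∧ ∀ t' : Fin n, t' ≠ t → P t' → a t' = 0 then 1 else 0) := by
  induction n with
  | zero =>
    intro a
    unfold mprod
    refine ⟨?_, ?_⟩
    · rw [Matrix.one_apply_eq, if_pos]
      intro t
      exact t.elim0
    · rw [Matrix.one_apply_ne (by decide), if_neg]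
      rintro ⟨t, -⟩
      exact t.elim0
  | succ n ih =>
    intro a
    obtain ⟨h1, h2⟩ := ih fun i => a i.castSucc
    unfold mprod
    by_cases hP : P n
    · have e : sel K P n (a (Fin.last n)) = mat (a (Fin.last n)) := by
        unfold sel
        rw [if_pos hP]
      rw [e]
      refine ⟨?_, ?_⟩
      · rw [Matrix.mul_apply, Fin.sum_univ_two, h1, h2, mat00, mat10, mul_zero, add_zero]
        by_cases c1 : ∀ t : Fin n, P t → a t.castSucc = 0
        · rw [if_pos c1, one_mul]
          by_cases c2 : a (Fin.last n) = 0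
          · rw [if_pos c2, if_pos]
            intro t
            refine Fin.lastCases (fun _ => c2) (fun i hi => c1 i hi) t
          · rw [if_neg c2, if_neg]
            intro h
            exact c2 (h _ hP)
        · rw [if_neg c1, zero_mul, if_neg]
          intro h
          exact c1 fun t ht => h _ ht
      · rw [Matrix.mul_apply, Fin.sum_univ_two, h1, h2, mat01, mat11]
        by_cases c1 : ∀ t : Fin n, P t → a t.castSucc = 0
        · have c1' : ¬ ∃ t : Fin n, P t ∧ a t.castSucc = 1 ∧ ∀ t' : Fin n, t' ≠ t → P t' →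
              a t'.castSucc = 0 := by
            rintro ⟨t, hPt, ht, -⟩
            rw [c1 t hPt] at ht
            exact absurd ht (by decide)
          rw [if_pos c1, if_neg c1', one_mul, zero_mul, add_zero]
          by_cases c2 : a (Fin.last n) = 1
          · rw [if_pos c2, if_pos]
            refine ⟨Fin.last n, hP, c2, fun t' ht' => ?_⟩
            revert ht'
            refine Fin.lastCases (fun h => absurd rfl h) (fun i _ hi => c1 i hi) t'
          · rw [if_neg c2, if_neg]
            rintro ⟨t, hPt, ht, -⟩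
            revert hPt ht
            refine Fin.lastCases (fun _ h => c2 h) (fun i hi h => ?_) t
            rw [c1 i hi] at h
            exact absurd h (by decide)
        · rw [if_neg c1, zero_mul, zero_add]
          by_cases c2 : ∃ t : Fin n, P t ∧ a t.castSucc = 1 ∧ ∀ t' : Fin n, t' ≠ t → P t' →
              a t'.castSucc = 0
          · rw [if_pos c2, one_mul]
            obtain ⟨t, hPt, ht, ht'⟩ := c2
            by_cases c3 : a (Fin.last n) = 0
            · rw [if_pos c3, if_pos]
              refine ⟨t.castSucc, hPt, ht, fun t' h => ?_⟩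
              revert h
              refine Fin.lastCases (fun _ _ => c3)
                (fun i h hi => ht' i (fun he => h (by rw [he])) hi) t'
            · rw [if_neg c3, if_neg]
              rintro ⟨t₁, hPt₁, h1, h1'⟩
              by_cases h3 : Fin.last n = t₁
              · have h4 := h1' t.castSucc (by
                  rw [← h3]
                  exact (Fin.castSucc_lt_last t).ne) hPt
                rw [ht] at h4
                exact absurd h4 (by decide)
              · exact c3 (h1' _ h3 hP)
          · rw [if_neg c2, zero_mul, if_neg]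
            rintro ⟨t, hPt, ht, ht'⟩
            revert hPt ht ht'
            refine Fin.lastCases (fun _ _ h => ?_) (fun i hi h h' => ?_) t
            · exact c1 fun t ht => h _ (Fin.castSucc_lt_last t).ne ht
            · exact c2 ⟨i, hi, h, fun t' ht' hp =>
                h' _ (fun e => ht' (Fin.castSucc_injective n e)) hp⟩
    · have e : sel K P n (a (Fin.last n)) = 1 := by
        unfold sel
        rw [if_neg hP]
      rw [e, mul_one]
      refine ⟨?_, ?_⟩
      · rw [h1]
        refine if_congr ?_ rfl rfl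
        constructor
        · intro h t
          refine Fin.lastCases (fun h' => absurd h' hP) (fun i hi => h i hi) t
        · intro h t ht
          exact h _ ht
      · rw [h2]
        refine if_congr ?_ rfl rfl
        constructor
        · rintro ⟨t, hPt, ht, ht'⟩
          refine ⟨t.castSucc, hPt, ht, fun t' => ?_⟩
          refine Fin.lastCases (fun _ h => absurd h hP)
            (fun i h hi => ht' i (fun he => h (by rw [he])) hi) t'
        · rintro ⟨t, hPt, ht, ht'⟩
          revert hPt ht ht'
          refine Fin.lastCases (fun h => absurd h hP) (fun i hi h h' => ?_) t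
          exact ⟨i, hi, h, fun t' ht' hp =>
            h' _ (fun e => ht' (Fin.castSucc_injective n e)) hp⟩

/-- the states: the residue of the position and the tensor index -/
def idx (k : ℕ) : Fin k × (Fin k → Fin 2) ≃ Fin (k * 2 ^ k) :=
  (Equiv.prodCongr (Equiv.refl _) finFunctionFinEquiv).trans finProdFinEquiv

/-- the matrices -/
noncomputable def midM (K : Type*) [Field K] (k : ℕ) (d : Fin 3) :
    Matrix (Fin (k * 2 ^ k)) (Fin (k * 2 ^ k)) K := fun X Y =>
  (if ((((idx k).symm X).1 : ℕ) + 1) % k = ((idx k).symm Y).1 then 1 else 0) *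
  ∏ i : Fin k, (if i = ((idx k).symm X).1 then mat d else 1 : Matrix (Fin 2) (Fin 2) K)
    (((idx k).symm X).2 i) (((idx k).symm Y).2 i)

theorem prod_midM (k : ℕ) (hk : 1 ≤ k) (n : ℕ) : ∀ (w : Fin n → Fin 3)
    (X Y : Fin (k * 2 ^ k)), (((idx k).symm X).1 : ℕ) = 0 →
    (mprod (fun _ => midM K k) n w) X Y =
      (if n % k = ((idx k).symm Y).1 then 1 else 0) *
      ∏ i : Fin k, (mprod (sel K fun t => t % k = i) n w)
        (((idx k).symm X).2 i) (((idx k).symm Y).2 i) := by
  induction n with
  | zero =>
    intro w X Y hX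
    unfold mprod
    by_cases h : X = Y
    · subst h
      rw [Matrix.one_apply_eq, Finset.prod_eq_one, Nat.zero_mod, if_pos hX.symm, one_mul]
      intro i _
      exact Matrix.one_apply_eq _
    · rw [Matrix.one_apply_ne h]
      by_cases h0 : 0 % k = (((idx k).symm Y).1 : ℕ)
      · have h1 : ∃ i, ((idx k).symm X).2 i ≠ ((idx k).symm Y).2 i := by
          by_contra hcon
          push Not at hcon
          refine h ((idx k).symm.injective (Prod.ext (Fin.ext ?_) (funext hcon)))
          rw [hX, ← h0, Nat.zero_mod]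
        obtain ⟨i, hi⟩ := h1
        have h2 : (1 : Matrix (Fin 2) (Fin 2) K) (((idx k).symm X).2 i)
            (((idx k).symm Y).2 i) = 0 := Matrix.one_apply_ne hi
        rw [Finset.prod_eq_zero (Finset.mem_univ i) h2, mul_zero]
      · rw [if_neg h0, zero_mul]
  | succ n ih =>
    intro w X Y hX
    have ih' := fun Z => ih (fun t => w t.castSucc) X Z hX
    unfold mprod
    rw [Matrix.mul_apply]
    have e1 : ∀ i : Fin k, (((mprod (sel K fun t => t % k = i) n fun t => w t.castSucc) *
        sel K (fun t => t % k = i) n (w (Fin.last n)) : Matrix (Fin 2) (Fin 2) K))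
        (((idx k).symm X).2 i) (((idx k).symm Y).2 i) =
        ∑ z : Fin 2, (mprod (sel K fun t => t % k = i) n fun t => w t.castSucc)
          (((idx k).symm X).2 i) z *
        sel K (fun t => t % k = i) n (w (Fin.last n)) z (((idx k).symm Y).2 i) :=
      fun i => Matrix.mul_apply
    rw [Finset.prod_congr rfl fun i _ => e1 i, Finset.prod_univ_sum, Fintype.piFinset_univ,
      ← Equiv.sum_comp (idx k), Fintype.sum_prod_type]
    have hj : n % k < k := Nat.mod_lt _ (by omega)
    rw [Finset.sum_eq_single (⟨n % k, hj⟩ : Fin k)]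
    · rw [Finset.mul_sum]
      refine Finset.sum_congr rfl fun z _ => ?_
      rw [ih']
      unfold midM
      simp only [Equiv.symm_apply_apply]
      rw [if_pos trivial, one_mul, Nat.mod_add_mod, Finset.prod_mul_distrib]
      have e2 : ∀ i : Fin k, (if i = (⟨n % k, hj⟩ : Fin k) then mat (w (Fin.last n)) else 1 :
          Matrix (Fin 2) (Fin 2) K) = sel K (fun t => t % k = i) n (w (Fin.last n)) := by
        intro i
        unfold sel
        by_cases h : n % k = i
        · rw [if_pos h, if_pos (Fin.ext h.symm)]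
        · rw [if_neg h, if_neg]
          intro h'
          exact h (by rw [h'])
      simp only [e2]
      ring
    · intro j _ hjne
      refine Finset.sum_eq_zero fun z _ => ?_
      rw [ih', Equiv.symm_apply_apply, if_neg, zero_mul, zero_mul]
      intro h
      exact hjne (Fin.ext h.symm)
    · intro h
      exact absurd (Finset.mem_univ _) h

/-- the number of elements -/
theorem count_gn (k : ℕ) (hk : 1 ≤ k) (x : ℕ) (hx : 3 ^ k ≤ x) :
    Real.log x ^ k ≤ (4 * k) ^ k *
      (({c | c < x ∧ c ∈ Set.range (gn : (Fin k → ℕ) → ℕ)} : Set ℕ).ncard : ℝ) := by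
  obtain ⟨t, ht⟩ : ∃ t, t = Nat.log 3 x / k := ⟨_, rfl⟩
  have hx0 : x ≠ 0 := by
    have : 0 < 3 ^ k := Nat.pow_pos (by norm_num)
    omega
  have h1 : k ≤ Nat.log 3 x := Nat.le_log_of_pow_le (by norm_num) hx
  have ht1 : 1 ≤ t := by
    rw [ht]
    exact (Nat.one_le_div_iff (by omega)).2 h1
  have ht2 : (3 ^ k) ^ t ≤ x := by
    rw [← pow_mul, ht]
    refine (Nat.pow_le_pow_right (by norm_num) (Nat.mul_div_le _ _)).trans
      (Nat.pow_log_le_self 3 hx0)
  have hcount : t ^ k ≤
      ({c | c < x ∧ c ∈ Set.range (gn : (Fin k → ℕ) → ℕ)} : Set ℕ).ncard := by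
    have hfin : ({c | c < x ∧ c ∈ Set.range (gn : (Fin k → ℕ) → ℕ)} : Set ℕ).Finite :=
      (Set.finite_Iio x).subset fun c hc => hc.1
    have h2 : (((Finset.univ : Finset (Fin k → Fin t)).image fun e =>
        gn fun i => (e i : ℕ) : Finset ℕ) : Set ℕ) ⊆
        {c | c < x ∧ c ∈ Set.range (gn : (Fin k → ℕ) → ℕ)} := by
      intro c hc
      rw [Finset.mem_coe, Finset.mem_image] at hc
      obtain ⟨e, -, rfl⟩ := hc
      refine ⟨?_, ⟨_, rfl⟩⟩
      rw [← value_one (n := t) (fun i => (e i : ℕ)) fun i => (e i).2]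
      exact (value_lt _).trans_le ht2
    have h3 := Set.ncard_le_ncard h2 hfin
    rw [Set.ncard_coe_finset, Finset.card_image_of_injective, Finset.card_univ,
      Fintype.card_fun, Fintype.card_fin, Fintype.card_fin] at h3
    · exact h3
    · intro e e' hee
      have h4 := gn_add (congrArg₂ (· + ·) hee hee)
      funext i
      refine Fin.ext ?_
      rcases h4 i with h5 | h5
      · exact h5.1
      · exact absurd h5.2.1 h5.1
  have hk0 : (0 : ℝ) < k := by exact_mod_cast hk
  have hlog : Real.log x ≤ 4 * k * t := by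
    have h2 : Nat.log 3 x < k * (t + 1) := by
      have := Nat.lt_mul_div_succ (Nat.log 3 x) (show 0 < k by omega)
      rwa [← ht] at this
    have h3 : x < 3 ^ (k * (t + 1)) :=
      (Nat.lt_pow_succ_log_self (by norm_num) x).trans_le
        (Nat.pow_le_pow_right (by norm_num) (by omega))
    have h4 : (x : ℝ) ≤ (3 : ℝ) ^ (k * (t + 1)) := by exact_mod_cast h3.le
    have h5 := Real.log_le_log (by exact_mod_cast Nat.pos_of_ne_zero hx0) h4
    rw [Real.log_pow] at h5
    have h6 : Real.log 3 ≤ 2 := by
      have := Real.log_le_sub_one_of_pos (show (0 : ℝ) < 3 by norm_num)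
      linarith
    have ht1' : (1 : ℝ) ≤ t := by exact_mod_cast ht1
    push_cast at h5
    calc Real.log x ≤ k * (t + 1) * Real.log 3 := h5
      _ ≤ k * (t + 1) * 2 := mul_le_mul_of_nonneg_left h6 (by positivity)
      _ ≤ 4 * k * t := by nlinarith
  have hx1 : (1 : ℝ) ≤ x := by exact_mod_cast Nat.pos_of_ne_zero hx0
  calc Real.log x ^ k ≤ (4 * k * t) ^ k :=
        pow_le_pow_left₀ (Real.log_nonneg hx1) hlog k
    _ = (4 * k) ^ k * ((t ^ k : ℕ) : ℝ) := by
        rw [mul_pow]
        push_cast
        ring
    _ ≤ (4 * k) ^ k *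
        (({c | c < x ∧ c ∈ Set.range (gn : (Fin k → ℕ) → ℕ)} : Set ℕ).ncard : ℝ) := by
        refine mul_le_mul_of_nonneg_left ?_ (by positivity)
        exact_mod_cast hcount

/-- **The example, base three.** -/
theorem regular_sharp3 (K : Type*) [Field K] (k : ℕ) (hk : 1 ≤ k) :
    ∃ f : ℕ → K, IsRegular 3 (k * 2 ^ k) f ∧ (∀ m, rep {c | f c ≠ 0} m ≤ 2 ^ k) ∧
      ∀ x : ℕ, 3 ^ k ≤ x →
        Real.log x ^ k ≤ (4 * k) ^ k * (({c | c < x ∧ f c ≠ 0} : Set ℕ).ncard : ℝ) := by
  classical
  set f : ℕ → K := fun c => if c ∈ Set.range (gn : (Fin k → ℕ) → ℕ) then 1 else 0 with hf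
  have hsupp : ∀ c, f c ≠ 0 ↔ c ∈ Set.range (gn : (Fin k → ℕ) → ℕ) := by
    intro c
    rw [hf]
    simp only
    by_cases h : c ∈ Set.range (gn : (Fin k → ℕ) → ℕ)
    · rw [if_pos h]
      exact ⟨fun _ => h, fun _ => one_ne_zero⟩
    · rw [if_neg h]
      exact ⟨fun h' => absurd rfl h', fun h' => absurd h' h⟩
  refine ⟨f, ?_, ?_, ?_⟩
  · refine ⟨midM K k, Pi.single (idx k (⟨0, by omega⟩, fun _ => 0)) 1,
      fun Y => if ∀ i, ((idx k).symm Y).2 i = 1 then 1 else 0, ?_⟩
    intro n w
    rw [single_one_dotProduct]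
    unfold Matrix.mulVec dotProduct
    rw [← Equiv.sum_comp (idx k), Fintype.sum_prod_type]
    have hj : n % k < k := Nat.mod_lt _ (by omega)
    have hX : (((idx k).symm (idx k ((⟨0, by omega⟩ : Fin k), fun _ : Fin k => (0 : Fin 2)))).1 :
        ℕ) = 0 := by
      rw [Equiv.symm_apply_apply]
    rw [Finset.sum_eq_single (⟨n % k, hj⟩ : Fin k)]
    · rw [Finset.sum_eq_single (fun _ : Fin k => (1 : Fin 2))]
      · beta_reduce
        rw [prod_midM k hk n w _ _ hX]
        simp only [Equiv.symm_apply_apply]
        rw [if_pos trivial, if_pos (fun _ => trivial), one_mul, mul_one]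
        have e1 : ∀ i : Fin k, (mprod (sel K fun t => t % k = i) n w) 0 1 =
            if ∃ t : Fin n, (t : ℕ) % k = i ∧ w t = 1 ∧
              ∀ t' : Fin n, t' ≠ t → (t' : ℕ) % k = i → w t' = 0 then 1 else 0 :=
          fun i => (prod_sel _ n w).2
        rw [Finset.prod_congr rfl fun i _ => e1 i, Finset.prod_ite_zero]
        have h1 := value_mem_range3 w hk
        rw [hf]
        simp only [h1, mem_univ, true_implies, prod_const_one]
      · intro z _ hz
        simp only [Equiv.symm_apply_apply]
        rw [if_neg, mul_zero]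
        intro h
        exact hz (funext h)
      · intro h
        exact absurd (Finset.mem_univ _) h
    · intro j _ hjne
      refine Finset.sum_eq_zero fun z _ => ?_
      beta_reduce
      rw [prod_midM k hk n w _ _ hX, Equiv.symm_apply_apply, if_neg, zero_mul, zero_mul]
      intro h
      exact hjne (Fin.ext h.symm)
    · intro h
      exact absurd (Finset.mem_univ _) h
  · intro m
    have e : {c | f c ≠ 0} = Set.range (gn : (Fin k → ℕ) → ℕ) := by
      ext c
      exact hsupp c
    rw [e]
    exact rep_gn m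
  · intro x hx
    have e : {c | c < x ∧ f c ≠ 0} = {c | c < x ∧ c ∈ Set.range (gn : (Fin k → ℕ) → ℕ)} := by
      ext c
      simp only [Set.mem_ofPred_eq, hsupp c]
    rw [e]
    exact count_gn k hk x hx

end Pool.Agent.Helper29.MP
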