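import Pool.Agent.Helper84.TN.Int
import Pool.Agent.Helper12.MP.Reg

set_option autoImplicit false

/-!
A regular sequence whose support has `(log x) ^ k` elements up to `x` and at most `2 ^ k`
representations.
-/

namespace Pool.Agent.Helper29.MP

open Finset Pool.Agent.Helper84.MP Pool.Agent.Helper82.CF
open Pool.Agent.Helper84.TN (value value_injective size)
open Pool.Agent.Helper12.MP (IsRegular exists_word value_lt ncard_le_size)

/-- the number with the digit one (base three) exactly at the positions `k * e i + i` -/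
def gn {k : ℕ} (e : Fin k → ℕ) : ℕ := ∑ i : Fin k, 3 ^ (k * e i + (i : ℕ))

/-- `k` base three digits as one digit -/
def enc {n k : ℕ} (τ : Fin n → Fin k → Fin 3) : Fin n → Fin (3 ^ k) := fun t =>
  finFunctionFinEquiv (τ t)

theorem enc_injective {n k : ℕ} : Function.Injective (enc : (Fin n → Fin k → Fin 3) → _) := by
  intro τ τ' h
  funext t
  exact finFunctionFinEquiv.injective (congrFun h t)

theorem value_enc {n k : ℕ} (τ : Fin n → Fin k → Fin 3) :
    value (enc τ) = ∑ i : Fin k, ∑ t : Fin n, (τ t i : ℕ) * 3 ^ (k * (t : ℕ) + (i : ℕ)) := by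
  unfold value
  rw [Finset.sum_comm]
  refine Finset.sum_congr rfl fun t _ => ?_
  unfold enc
  rw [finFunctionFinEquiv_apply, Finset.sum_mul]
  refine Finset.sum_congr rfl fun i _ => ?_
  rw [pow_add, pow_mul]
  ring

theorem sum_ite_eq_pow {n k : ℕ} (i : Fin k) (a : ℕ) (ha : a < n) :
    ∑ t : Fin n, (if a = (t : ℕ) then 1 else 0) * 3 ^ (k * (t : ℕ) + (i : ℕ)) =
      3 ^ (k * a + (i : ℕ)) := by
  rw [Finset.sum_eq_single (⟨a, ha⟩ : Fin n)]
  · simp
  · intro t _ ht
    rw [if_neg, zero_mul]
    intro h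
    exact ht (Fin.ext h.symm)
  · intro h
    exact absurd (Finset.mem_univ _) h

/-- the digits of one number -/
def one {n k : ℕ} (e : Fin k → ℕ) : Fin n → Fin k → Fin 3 := fun t i =>
  if e i = (t : ℕ) then 1 else 0

/-- the digits of a sum -/
def two {n k : ℕ} (e e' : Fin k → ℕ) : Fin n → Fin k → Fin 3 := fun t i =>
  ⟨(if e i = (t : ℕ) then 1 else 0) + (if e' i = (t : ℕ) then 1 else 0), by split_ifs <;> norm_num⟩

theorem value_one {n k : ℕ} (e : Fin k → ℕ) (he : ∀ i, e i < n) :
    value (enc (one (n := n) e)) = gn e := by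
  rw [value_enc]
  unfold gn
  refine Finset.sum_congr rfl fun i _ => ?_
  rw [← sum_ite_eq_pow i (e i) (he i)]
  refine Finset.sum_congr rfl fun t _ => ?_
  unfold one
  split_ifs <;> rfl

theorem value_two {n k : ℕ} (e e' : Fin k → ℕ) (he : ∀ i, e i < n) (he' : ∀ i, e' i < n) :
    value (enc (two (n := n) e e')) = gn e + gn e' := by
  rw [value_enc]
  unfold gn
  rw [← Finset.sum_add_distrib]
  refine Finset.sum_congr rfl fun i _ => ?_
  rw [← sum_ite_eq_pow i (e i) (he i), ← sum_ite_eq_pow i (e' i) (he' i),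
    ← Finset.sum_add_distrib]
  refine Finset.sum_congr rfl fun t _ => ?_
  rw [← add_mul]
  rfl

theorem exists_bound {k : ℕ} (e : Fin k → ℕ) : ∃ n, ∀ i, e i < n :=
  ⟨∑ i, e i + 1, fun i => Nat.lt_succ_of_le
    (Finset.single_le_sum (f := e) (fun _ _ => Nat.zero_le _) (Finset.mem_univ i))⟩

theorem gn_add {k : ℕ} {c c' e e' : Fin k → ℕ} (h : gn c + gn c' = gn e + gn e') (i : Fin k) :
    (c i = e i ∧ c' i = e' i) ∨ (c i ≠ e i ∧ c i = e' i ∧ c' i = e i) := by
  obtain ⟨n1, h1⟩ := exists_bound c
  obtain ⟨n2, h2⟩ := exists_bound c'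
  obtain ⟨n3, h3⟩ := exists_bound e
  obtain ⟨n4, h4⟩ := exists_bound e'
  set n := n1 + n2 + n3 + n4 with hn
  have k1 : ∀ i, c i < n := fun i => by have := h1 i; omega
  have k2 : ∀ i, c' i < n := fun i => by have := h2 i; omega
  have k3 : ∀ i, e i < n := fun i => by have := h3 i; omega
  have k4 : ∀ i, e' i < n := fun i => by have := h4 i; omega
  rw [← value_two c c' k1 k2, ← value_two e e' k3 k4] at h
  have h5 := enc_injective (value_injective h)
  have key : ∀ t, t < n → (if c i = t then 1 else 0) + (if c' i = t then 1 else 0) =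
      (if e i = t then 1 else 0) + (if e' i = t then 1 else 0) := by
    intro t ht
    exact congrArg Fin.val (congrFun (congrFun h5 ⟨t, ht⟩) i)
  have a1 := key (e i) (k3 i)
  have a2 := key (e' i) (k4 i)
  have a3 := key (c i) (k1 i)
  by_cases hc : c i = e i
  · left
    refine ⟨hc, ?_⟩
    rw [hc] at a2
    by_contra hne
    rw [if_neg hne] at a2
    simp only [if_true] at a2
    by_cases h6 : e i = e' i
    · rw [h6] at a2
      simp at a2
    · rw [if_neg h6] at a2
      simp at a2
  · right
    refine ⟨hc, ?_, ?_⟩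
    · by_contra hne
      have b1 : ¬ (e i = c i) := fun h => hc h.symm
      have b2 : ¬ (e' i = c i) := fun h => hne h.symm
      rw [if_pos rfl, if_neg b1, if_neg b2] at a3
      omega
    · by_contra hne
      rw [if_neg hc, if_neg hne] at a1
      simp only [if_true] at a1
      omega

/-- at most `2 ^ k` representations -/
theorem rep_gn {k : ℕ} (m : ℕ) : rep (Set.range (gn : (Fin k → ℕ) → ℕ)) m ≤ 2 ^ k := by
  classical
  unfold rep
  by_cases hne : ∃ e e' : Fin k → ℕ, gn e + gn e' = m
  · obtain ⟨e, e', he⟩ := hne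
    set ψ : Finset (Fin k) → ℕ × ℕ := fun J =>
      (gn fun i => if i ∈ J then e i else e' i, gn fun i => if i ∈ J then e' i else e i) with hψ
    have hsub : ({p : ℕ × ℕ | p.1 ∈ Set.range (gn : (Fin k → ℕ) → ℕ) ∧
        p.2 ∈ Set.range (gn : (Fin k → ℕ) → ℕ) ∧ p.1 + p.2 = m} : Set (ℕ × ℕ)) ⊆
        ((Finset.univ.image ψ : Finset (ℕ × ℕ)) : Set (ℕ × ℕ)) := by
      rintro ⟨p, q⟩ ⟨⟨c, hc⟩, ⟨c', hc'⟩, hpq⟩
      simp only at hc hc' hpq
      rw [Finset.mem_coe, Finset.mem_image]
      refine ⟨Finset.univ.filter fun i => c i = e i, Finset.mem_univ _, ?_⟩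
      have h1 : gn c + gn c' = gn e + gn e' := by rw [hc, hc', hpq, he]
      have h2 := gn_add h1
      rw [hψ]
      refine Prod.ext ?_ ?_
      · simp only [mem_filter, mem_univ, true_and]
        rw [← hc]
        congr 1
        funext i
        rcases h2 i with ⟨h3, h4⟩ | ⟨h3, h4, h5⟩
        · rw [if_pos h3, h3]
        · rw [if_neg h3, h4]
      · simp only [mem_filter, mem_univ, true_and]
        rw [← hc']
        congr 1
        funext i
        rcases h2 i with ⟨h3, h4⟩ | ⟨h3, h4, h5⟩
        · rw [if_pos h3, h4]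
        · rw [if_neg h3, h5]
    refine (Set.ncard_le_ncard hsub (Finset.finite_toSet _)).trans ?_
    rw [Set.ncard_coe_finset]
    refine Finset.card_image_le.trans (le_of_eq ?_)
    rw [Finset.card_univ, Fintype.card_finset, Fintype.card_fin]
  · have h0 : ({p : ℕ × ℕ | p.1 ∈ Set.range (gn : (Fin k → ℕ) → ℕ) ∧
        p.2 ∈ Set.range (gn : (Fin k → ℕ) → ℕ) ∧ p.1 + p.2 = m} : Set (ℕ × ℕ)) = ∅ := by
      rw [Set.eq_empty_iff_forall_notMem]
      rintro ⟨p, q⟩ ⟨⟨c, hc⟩, ⟨c', hc'⟩, hpq⟩
      simp only at hc hc' hpq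
      exact hne ⟨c, c', by rw [hc, hc', hpq]⟩
    rw [h0, Set.ncard_empty]
    exact Nat.zero_le _

/-- membership by digits -/
theorem value_mem_range {n k : ℕ} (hk : 1 ≤ k) (w : Fin n → Fin (3 ^ k)) :
    value w ∈ Set.range (gn : (Fin k → ℕ) → ℕ) ↔ ∀ i : Fin k, ∃ t : Fin n,
      finFunctionFinEquiv.symm (w t) i = (1 : Fin 3) ∧
      ∀ t' : Fin n, t' ≠ t → finFunctionFinEquiv.symm (w t') i = (0 : Fin 3) := by
  constructor
  · rintro ⟨e, he⟩
    have hlt : ∀ i, e i < n := by
      intro i
      have h1 : 3 ^ (k * e i) ≤ gn e := by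
        calc 3 ^ (k * e i) ≤ 3 ^ (k * e i + (i : ℕ)) := Nat.pow_le_pow_right (by norm_num)
              (Nat.le_add_right _ _)
          _ ≤ gn e := Finset.single_le_sum (f := fun i : Fin k => 3 ^ (k * e i + (i : ℕ)))
              (fun _ _ => Nat.zero_le _) (Finset.mem_univ i)
      have h2 := value_lt w
      rw [← he, ← pow_mul] at h2
      have h3 := (Nat.pow_lt_pow_iff_right (by norm_num : 1 < 3)).1 (h1.trans_lt h2)
      exact Nat.lt_of_mul_lt_mul_left h3
    rw [← value_one e hlt] at he
    have hw := value_injective he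
    intro i
    refine ⟨⟨e i, hlt i⟩, ?_, ?_⟩
    · rw [← hw]
      unfold enc
      rw [Equiv.symm_apply_apply]
      unfold one
      rw [if_pos rfl]
    · intro t' ht'
      rw [← hw]
      unfold enc
      rw [Equiv.symm_apply_apply]
      unfold one
      rw [if_neg]
      intro h
      exact ht' (Fin.ext h.symm)
  · intro h
    choose t ht1 ht2 using h
    refine ⟨fun i => (t i : ℕ), ?_⟩
    rw [← value_one (n := n) (fun i => (t i : ℕ)) fun i => (t i).2]
    congr 1
    funext r
    unfold enc
    rw [← Equiv.eq_symm_apply]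
    funext i
    unfold one
    by_cases hr : (t i : ℕ) = (r : ℕ)
    · have hr' : r = t i := Fin.ext hr.symm
      rw [if_pos hr, hr', ht1]
    · rw [if_neg hr, ht2 i r fun h => hr (by rw [h])]

variable {K : Type*} [Field K]

/-- the matrices of one class -/
def mat (d : Fin 3) : Matrix (Fin 2) (Fin 2) K :=
  if d = 0 then 1 else if d = 1 then !![0, 1; 0, 0] else 0

theorem mat00 (d : Fin 3) : (mat d : Matrix (Fin 2) (Fin 2) K) 0 0 = if d = 0 then 1 else 0 := by
  unfold mat
  split_ifs <;> simp

theorem mat01 (d : Fin 3) : (mat d : Matrix (Fin 2) (Fin 2) K) 0 1 = if d = 1 then 1 else 0 := by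
  unfold mat
  split_ifs with h1 h2
  · subst h1
    exact absurd h2 (by decide)
  · simp
  · simp
  · simp

theorem mat10 (d : Fin 3) : (mat d : Matrix (Fin 2) (Fin 2) K) 1 0 = 0 := by
  unfold mat
  split_ifs <;> simp

theorem mat11 (d : Fin 3) : (mat d : Matrix (Fin 2) (Fin 2) K) 1 1 = if d = 0 then 1 else 0 := by
  unfold mat
  split_ifs <;> simp

theorem prod_mat (n : ℕ) : ∀ a : Fin n → Fin 3,
    (mprod (K := K) (fun _ => mat) n a) 0 0 = (if ∀ t, a t = 0 then 1 else 0) ∧
    (mprod (K := K) (fun _ => mat) n a) 0 1 =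
      (if ∃ t, a t = 1 ∧ ∀ t', t' ≠ t → a t' = 0 then 1 else 0) := by
  induction n with
  | zero =>
    intro a
    unfold mprod
    refine ⟨?_, ?_⟩
    · rw [Matrix.one_apply_eq, if_pos]
      intro t
      exact t.elim0
    · rw [Matrix.one_apply_ne (by decide), if_neg]
      rintro ⟨t, -⟩
      exact t.elim0
  | succ n ih =>
    intro a
    obtain ⟨h1, h2⟩ := ih fun i => a i.castSucc
    unfold mprod
    refine ⟨?_, ?_⟩
    · rw [Matrix.mul_apply, Fin.sum_univ_two, h1, h2, mat00, mat10, mul_zero, add_zero]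
      by_cases c1 : ∀ t : Fin n, a t.castSucc = 0
      · rw [if_pos c1, one_mul]
        by_cases c2 : a (Fin.last n) = 0
        · rw [if_pos c2, if_pos]
          intro t
          refine Fin.lastCases c2 (fun i => c1 i) t
        · rw [if_neg c2, if_neg]
          intro h
          exact c2 (h _)
      · rw [if_neg c1, zero_mul, if_neg]
        intro h
        exact c1 fun t => h _
    · rw [Matrix.mul_apply, Fin.sum_univ_two, h1, h2, mat01, mat11]
      by_cases c1 : ∀ t : Fin n, a t.castSucc = 0
      · have c1' : ¬ ∃ t : Fin n, a t.castSucc = 1 ∧ ∀ t' : Fin n, t' ≠ t →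
            a t'.castSucc = 0 := by
          rintro ⟨t, ht, -⟩
          rw [c1 t] at ht
          exact absurd ht (by decide)
        rw [if_pos c1, if_neg c1', one_mul, zero_mul, add_zero]
        by_cases c2 : a (Fin.last n) = 1
        · rw [if_pos c2, if_pos]
          refine ⟨Fin.last n, c2, fun t' ht' => ?_⟩
          revert ht'
          refine Fin.lastCases (fun h => absurd rfl h) (fun i _ => c1 i) t'
        · rw [if_neg c2, if_neg]
          rintro ⟨t, ht, -⟩
          revert ht
          refine Fin.lastCases (fun h => c2 h) (fun i h => ?_) t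
          rw [c1 i] at h
          exact absurd h (by decide)
      · rw [if_neg c1, zero_mul, zero_add]
        by_cases c2 : ∃ t : Fin n, a t.castSucc = 1 ∧ ∀ t' : Fin n, t' ≠ t →
            a t'.castSucc = 0
        · rw [if_pos c2, one_mul]
          obtain ⟨t, ht, ht'⟩ := c2
          by_cases c3 : a (Fin.last n) = 0
          · rw [if_pos c3, if_pos]
            refine ⟨t.castSucc, ht, fun t' h => ?_⟩
            revert h
            refine Fin.lastCases (fun _ => c3) (fun i h => ht' i fun hi => h (by rw [hi])) t'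
          · rw [if_neg c3, if_neg]
            rintro ⟨t₁, h1, h1'⟩
            by_cases h3 : Fin.last n = t₁
            · have h4 := h1' t.castSucc (by
                rw [← h3]
                exact (Fin.castSucc_lt_last t).ne)
              rw [ht] at h4
              exact absurd h4 (by decide)
            · exact c3 (h1' _ h3)
        · rw [if_neg c2, zero_mul, if_neg]
          rintro ⟨t, ht, ht'⟩
          revert ht ht'
          refine Fin.lastCases (fun _ h => ?_) (fun i h h' => ?_) t
          · exact c1 fun t => h _ (Fin.castSucc_lt_last t).ne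
          · exact c2 ⟨i, h, fun t' ht' => h' _ fun e => ht' (Fin.castSucc_injective n e)⟩

/-- the matrices: tensor products over the classes -/
noncomputable def bigM (K : Type*) [Field K] (k : ℕ) (d : Fin (3 ^ k)) :
    Matrix (Fin (2 ^ k)) (Fin (2 ^ k)) K := fun X Y =>
  ∏ i : Fin k, (mat (finFunctionFinEquiv.symm d i) : Matrix (Fin 2) (Fin 2) K)
    (finFunctionFinEquiv.symm X i) (finFunctionFinEquiv.symm Y i)

theorem prod_bigM (k n : ℕ) : ∀ (w : Fin n → Fin (3 ^ k)) (X Y : Fin (2 ^ k)),
    (mprod (fun _ => bigM K k) n w) X Y =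
      ∏ i : Fin k, (mprod (K := K) (fun _ => mat) n fun t => finFunctionFinEquiv.symm (w t) i)
        (finFunctionFinEquiv.symm X i) (finFunctionFinEquiv.symm Y i) := by
  induction n with
  | zero =>
    intro w X Y
    unfold mprod
    by_cases h : X = Y
    · subst h
      rw [Matrix.one_apply_eq, Finset.prod_eq_one]
      intro i _
      exact Matrix.one_apply_eq _
    · rw [Matrix.one_apply_ne h]
      have h1 : ∃ i, (finFunctionFinEquiv.symm X : Fin k → Fin 2) i ≠
          finFunctionFinEquiv.symm Y i := by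
        by_contra hcon
        push Not at hcon
        exact h (finFunctionFinEquiv.symm.injective (funext hcon))
      obtain ⟨i, hi⟩ := h1
      have h2 : (1 : Matrix (Fin 2) (Fin 2) K) (finFunctionFinEquiv.symm X i)
          (finFunctionFinEquiv.symm Y i) = 0 := Matrix.one_apply_ne hi
      exact (Finset.prod_eq_zero (Finset.mem_univ i) h2).symm
  | succ n ih =>
    intro w X Y
    unfold mprod
    rw [Matrix.mul_apply]
    have e1 : ∀ i : Fin k, (((mprod (K := K) (fun _ => mat) n fun t =>
        finFunctionFinEquiv.symm (w t.castSucc) i) *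
        mat (finFunctionFinEquiv.symm (w (Fin.last n)) i) : Matrix (Fin 2) (Fin 2) K))
        (finFunctionFinEquiv.symm X i) (finFunctionFinEquiv.symm Y i) =
        ∑ z : Fin 2, (mprod (K := K) (fun _ => mat) n fun t =>
        finFunctionFinEquiv.symm (w t.castSucc) i) (finFunctionFinEquiv.symm X i) z *
        mat (finFunctionFinEquiv.symm (w (Fin.last n)) i) z (finFunctionFinEquiv.symm Y i) :=
      fun i => Matrix.mul_apply
    rw [Finset.prod_congr rfl fun i _ => e1 i, Finset.prod_univ_sum, Fintype.piFinset_univ,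
      ← Equiv.sum_comp (finFunctionFinEquiv (m := 2) (n := k)).symm]
    refine Finset.sum_congr rfl fun Z _ => ?_
    rw [ih, Finset.prod_mul_distrib]
    rfl

/-- **The example.** -/
theorem regular_sharp (K : Type*) [Field K] (k : ℕ) (hk : 1 ≤ k) :
    ∃ f : ℕ → K, IsRegular (3 ^ k) (2 ^ k) f ∧ (∀ m, rep {c | f c ≠ 0} m ≤ 2 ^ k) ∧
      ∀ x : ℕ, 3 ^ k ≤ x →
        Real.log x ^ k ≤ (4 * k) ^ k * (({c | c < x ∧ f c ≠ 0} : Set ℕ).ncard : ℝ) := by
  classical
  set f : ℕ → K := fun c => if c ∈ Set.range (gn : (Fin k → ℕ) → ℕ) then 1 else 0 with hf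
  have hsupp : ∀ c, f c ≠ 0 ↔ c ∈ Set.range (gn : (Fin k → ℕ) → ℕ) := by
    intro c
    rw [hf]
    simp only
    by_cases h : c ∈ Set.range (gn : (Fin k → ℕ) → ℕ)
    · rw [if_pos h]
      exact ⟨fun _ => h, fun _ => one_ne_zero⟩
    · rw [if_neg h]
      exact ⟨fun h' => absurd rfl h', fun h' => absurd h' h⟩
  refine ⟨f, ?_, ?_, ?_⟩
  · refine ⟨bigM K k, Pi.single (finFunctionFinEquiv fun _ => 0) 1,
      Pi.single (finFunctionFinEquiv fun _ => 1) 1, ?_⟩
    intro n w
    rw [single_one_dotProduct, Matrix.mulVec_single_one, Matrix.col_apply, prod_bigM]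
    have e1 : ∀ i : Fin k, (mprod (K := K) (fun _ => mat) n fun t =>
        finFunctionFinEquiv.symm (w t) i)
        (finFunctionFinEquiv.symm (finFunctionFinEquiv fun _ : Fin k => (0 : Fin 2)) i)
        (finFunctionFinEquiv.symm (finFunctionFinEquiv fun _ : Fin k => (1 : Fin 2)) i) =
        if ∃ t, (finFunctionFinEquiv.symm (w t) i : Fin 3) = 1 ∧
          ∀ t', t' ≠ t → (finFunctionFinEquiv.symm (w t') i : Fin 3) = 0 then 1 else 0 := by
      intro i
      rw [Equiv.symm_apply_apply, Equiv.symm_apply_apply]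
      exact (prod_mat n _).2
    rw [Finset.prod_congr rfl fun i _ => e1 i, Finset.prod_ite_zero]
    have h1 := value_mem_range hk w
    rw [hf]
    simp only [h1, mem_univ, true_implies, prod_const_one]
  · intro m
    have e : {c | f c ≠ 0} = Set.range (gn : (Fin k → ℕ) → ℕ) := by
      ext c
      exact hsupp c
    rw [e]
    exact rep_gn m
  · intro x hx
    set t : ℕ := Nat.log 3 x / k with ht
    have hx0 : x ≠ 0 := by
      have : 0 < 3 ^ k := Nat.pow_pos (by norm_num)
      omega
    have h1 : k ≤ Nat.log 3 x := Nat.le_log_of_pow_le (by norm_num) hx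
    have ht1 : 1 ≤ t := (Nat.one_le_div_iff (by omega)).2 h1
    have ht2 : (3 ^ k) ^ t ≤ x := by
      rw [← pow_mul]
      refine (Nat.pow_le_pow_right (by norm_num) (Nat.mul_div_le _ _)).trans
        (Nat.pow_log_le_self 3 hx0)
    have hcount : t ^ k ≤ ({c | c < x ∧ f c ≠ 0} : Set ℕ).ncard := by
      have hfin : ({c | c < x ∧ f c ≠ 0} : Set ℕ).Finite :=
        (Set.finite_Iio x).subset fun c hc => hc.1
      have h2 : (((Finset.univ : Finset (Fin k → Fin t)).image fun e =>
          gn fun i => (e i : ℕ) : Finset ℕ) : Set ℕ) ⊆ {c | c < x ∧ f c ≠ 0} := by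
        intro c hc
        rw [Finset.mem_coe, Finset.mem_image] at hc
        obtain ⟨e, -, rfl⟩ := hc
        refine ⟨?_, (hsupp _).2 ⟨_, rfl⟩⟩
        rw [← value_one (n := t) (fun i => (e i : ℕ)) fun i => (e i).2]
        exact (value_lt _).trans_le ht2
      have h3 := Set.ncard_le_ncard h2 hfin
      rw [Set.ncard_coe_finset, Finset.card_image_of_injective, Finset.card_univ,
        Fintype.card_fun, Fintype.card_fin, Fintype.card_fin] at h3
      · exact h3
      · intro e e' hee
        have h4 := gn_add (congrArg₂ (· + ·) hee hee)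
        funext i
        refine Fin.ext ?_
        rcases h4 i with h5 | h5
        · exact h5.1
        · exact absurd h5.2.1 h5.1
    have hk0 : (0 : ℝ) < k := by exact_mod_cast hk
    have hlog : Real.log x ≤ 4 * k * t := by
      have h2 : Nat.log 3 x < k * (t + 1) := by
        have := Nat.lt_mul_div_succ (Nat.log 3 x) (show 0 < k by omega)
        rwa [← ht] at this
      have h3 : x < 3 ^ (k * (t + 1)) :=
        (Nat.lt_pow_succ_log_self (by norm_num) x).trans_le
          (Nat.pow_le_pow_right (by norm_num) (by omega))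
      have h4 : (x : ℝ) ≤ (3 : ℝ) ^ (k * (t + 1)) := by exact_mod_cast h3.le
      have h5 := Real.log_le_log (by exact_mod_cast Nat.pos_of_ne_zero hx0) h4
      rw [Real.log_pow] at h5
      have h6 : Real.log 3 ≤ 2 := by
        have := Real.log_le_sub_one_of_pos (show (0 : ℝ) < 3 by norm_num)
        linarith
      have ht1' : (1 : ℝ) ≤ t := by exact_mod_cast ht1
      push_cast at h5
      calc Real.log x ≤ k * (t + 1) * Real.log 3 := h5
        _ ≤ k * (t + 1) * 2 := mul_le_mul_of_nonneg_left h6 (by positivity)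
        _ ≤ 4 * k * t := by nlinarith
    have hx1 : (1 : ℝ) ≤ x := by exact_mod_cast Nat.pos_of_ne_zero hx0
    calc Real.log x ^ k ≤ (4 * k * t) ^ k :=
          pow_le_pow_left₀ (Real.log_nonneg hx1) hlog k
      _ = (4 * k) ^ k * ((t ^ k : ℕ) : ℝ) := by
          rw [mul_pow]
          push_cast
          ring
      _ ≤ (4 * k) ^ k * (({c | c < x ∧ f c ≠ 0} : Set ℕ).ncard : ℝ) := by
          refine mul_le_mul_of_nonneg_left ?_ (by positivity)
          exact_mod_cast hcount

end Pool.Agent.Helper29.MP
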